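import Mathlib
import Pool.Agent.R243.TM.N3

/-!
# MP_becf51_an: `c_N > π / 2` for every `N ≥ 2`
-/

namespace Pool.Agent.Results.MP_becf51_an.RatioAbovePiHalf

open MeasureTheory AddCircle

/-- `A` is a self-adjoint Toeplitz matrix of size `N+1`. -/
def IsSAToeplitz {N : ℕ} (A : Matrix (Fin (N + 1)) (Fin (N + 1)) ℂ) : Prop :=
  ∃ a : ℤ → ℂ, (∀ n, a (-n) = (starRingEnd ℂ) (a n)) ∧
    ∀ j k : Fin (N + 1), A j k = a (((j : ℕ) : ℤ) - ((k : ℕ) : ℤ))

/-- The set `G_A` of essentially bounded functions `f` on the circle with `f^(j-k) = A j k` for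
`0 ≤ j, k ≤ N`, that is, `f^(n) = a_n` for `-N ≤ n ≤ N`. -/
def GA {N : ℕ} (A : Matrix (Fin (N + 1)) (Fin (N + 1)) ℂ) : Set (UnitAddCircle → ℂ) :=
  {f | MemLp f ⊤ haarAddCircle ∧
    ∀ j k : Fin (N + 1), fourierCoeff f (((j : ℕ) : ℤ) - ((k : ℕ) : ℤ)) = A j k}

/-- `c_A`, the infimum of the essential sup norms of the members of `G_A`. -/
noncomputable def cA {N : ℕ} (A : Matrix (Fin (N + 1)) (Fin (N + 1)) ℂ) : ENNReal :=
  ⨅ f ∈ GA A, eLpNorm f ⊤ haarAddCircle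

/-- The spectral norm of `A`, i.e. its norm as an operator on Euclidean space. -/
noncomputable def opNorm {N : ℕ} (A : Matrix (Fin (N + 1)) (Fin (N + 1)) ℂ) : ℝ :=
  ‖Matrix.toEuclideanCLM (n := Fin (N + 1)) (𝕜 := ℂ) A‖

/-- `c_N`, the supremum of the ratios `c_A / ‖A‖` over nonzero self-adjoint Toeplitz matrices `A`
of size `N+1`. -/
noncomputable def cN (N : ℕ) : ENNReal :=
  ⨆ A ∈ {A : Matrix (Fin (N + 1)) (Fin (N + 1)) ℂ | IsSAToeplitz A ∧ A ≠ 0},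
    cA A / ENNReal.ofReal (opNorm A)

/-- `c_N > π / 2` for every integer `N ≥ 2`. -/
theorem result : ∀ N : ℕ, 2 ≤ N → ENNReal.ofReal (Real.pi / 2) < cN N :=
  fun _ hN => R243.TM.main hN

end Pool.Agent.Results.MP_becf51_an.RatioAbovePiHalf
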